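import Pool.Agent.H40.EGD.Targets

/-! HLF: an invariance known for half of the directions. -/

set_option autoImplicit false

namespace Pool.Agent.H37.EGD

open MeasureTheory Set Metric Filter Topology Pool.Agent.H93.BL Pool.Agent.H40.EGD
open Pool.Agent.H93.EN (av md rf)

theorem HLF_pos (A : ℝ → Prop) (β : ℝ) (hper : ∀ (θ : ℝ) (k : ℤ), A (θ + k * (2 * Real.pi)) ↔ A θ)
    (h : ∀ᵐ φ : ℝ, φ ∈ Ioo (-(Real.pi / 2)) (Real.pi / 2) → A (β + φ)) :
    ∀ᵐ θ : ℝ, 0 < Real.cos (θ - β) → A θ := by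
  have h1 : ∀ᵐ θ : ℝ, ∀ k : ℤ, (θ - (β + k * (2 * Real.pi))) ∈
      Ioo (-(Real.pi / 2)) (Real.pi / 2) → A (β + (θ - (β + k * (2 * Real.pi)))) := by
    rw [ae_all_iff]
    intro k
    exact (measurePreserving_sub_right volume (β + (k : ℝ) * (2 * Real.pi))).quasiMeasurePreserving.ae h
  filter_upwards [h1] with θ hθ hc
  obtain ⟨m, hm, _⟩ := existsUnique_add_zsmul_mem_Ioc Real.two_pi_pos (θ - β) (-Real.pi)
  simp only [zsmul_eq_mul] at hm
  obtain ⟨y, hy⟩ : ∃ y, y = θ - β + m * (2 * Real.pi) := ⟨_, rfl⟩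
  rw [← hy] at hm
  have hcy : Real.cos y = Real.cos (θ - β) := by
    rw [hy]
    exact Real.cos_add_int_mul_two_pi _ _
  have hy1 : y < Real.pi / 2 := by
    by_contra hlt
    have h2 := Real.cos_nonpos_of_pi_div_two_le_of_le (not_lt.1 hlt)
      (by have := hm.2; have := Real.pi_pos; linarith)
    linarith
  have hy2 : -(Real.pi / 2) < y := by
    by_contra hlt
    have h2 := Real.cos_nonpos_of_pi_div_two_le_of_le (x := -y)
      (by have := not_lt.1 hlt; linarith) (by have := hm.1; have := Real.pi_pos; linarith)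
    rw [Real.cos_neg] at h2
    linarith
  have h3 := hθ (-m)
  have h4 : θ - (β + ((-m : ℤ) : ℝ) * (2 * Real.pi)) = y := by
    rw [hy]
    push_cast
    ring
  rw [h4] at h3
  have h5 := h3 ⟨hy2, hy1⟩
  have h6 : β + y = θ + m * (2 * Real.pi) := by
    rw [hy]
    ring
  rw [h6] at h5
  exact (hper θ m).1 h5

theorem HLF : T_HLF := by
  intro u W hu h
  obtain ⟨β, hβ⟩ : ∃ β : ℝ, Complex.I * u = Complex.exp ((β : ℂ) * Complex.I) := by
    refine ⟨Complex.arg (Complex.I * u), ?_⟩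
    have h1 := Complex.norm_mul_exp_arg_mul_I (Complex.I * u)
    rw [norm_mul, Complex.norm_I, hu] at h1
    simpa using h1.symm
  have hu2 : u ^ 2 = Complex.exp (((2 * β - Real.pi : ℝ) : ℂ) * Complex.I) := by
    have h1 : u ^ 2 = -((Complex.I * u) ^ 2) := by
      rw [mul_pow, Complex.I_sq]
      ring
    rw [h1, hβ, ← Complex.exp_nat_mul]
    have h2 : (((2 * β - Real.pi : ℝ) : ℂ) * Complex.I) =
        ((2 : ℕ) : ℂ) * ((β : ℂ) * Complex.I) + -(Real.pi * Complex.I) := by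
      push_cast
      ring
    rw [h2, Complex.exp_add, Complex.exp_neg, Complex.exp_pi_mul_I]
    simp
  have hrf : ∀ θ : ℝ, rf u (Complex.exp ((θ : ℂ) * Complex.I)) =
      Complex.exp (((2 * β - Real.pi - θ : ℝ) : ℂ) * Complex.I) := by
    intro θ
    unfold rf
    rw [hu2, ← Complex.exp_conj, ← Complex.exp_add]
    congr 1
    rw [map_mul, Complex.conj_ofReal, Complex.conj_I]
    push_cast
    ring
  obtain ⟨A, hA⟩ : ∃ A : ℝ → Prop, ∀ θ, A θ ↔ (Complex.exp ((θ : ℂ) * Complex.I) ∈ W ↔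
    rf u (Complex.exp ((θ : ℂ) * Complex.I)) ∈ W) := ⟨fun θ => _, fun θ => Iff.rfl⟩
  have hper : ∀ (θ : ℝ) (k : ℤ), A (θ + k * (2 * Real.pi)) ↔ A θ := by
    intro θ k
    have h1 : Complex.exp (((θ + k * (2 * Real.pi) : ℝ) : ℂ) * Complex.I) =
        Complex.exp ((θ : ℂ) * Complex.I) := by
      rw [Complex.exp_eq_exp_iff_exists_int]
      refine ⟨k, ?_⟩
      push_cast
      ring
    rw [hA, hA, h1]
  have h0 : ∀ᵐ φ : ℝ, φ ∈ Ioo (-(Real.pi / 2)) (Real.pi / 2) → A (β + φ) := by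
    filter_upwards [h] with φ hφ hm
    have h1 := hφ hm
    have h2 : Complex.I * u * Complex.exp ((φ : ℂ) * Complex.I) =
        Complex.exp (((β + φ : ℝ) : ℂ) * Complex.I) := by
      rw [hβ, ← Complex.exp_add]
      congr 1
      push_cast
      ring
    rw [h2] at h1
    exact (hA _).2 h1
  have h1 := HLF_pos A β hper h0
  have h2 : ∀ᵐ θ : ℝ, 0 < Real.cos ((2 * β - Real.pi - θ) - β) → A (2 * β - Real.pi - θ) :=
    (Measure.measurePreserving_sub_left volume (2 * β - Real.pi)).quasiMeasurePreserving.ae h1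
  have h3 : ∀ᵐ θ : ℝ, Real.cos (θ - β) ≠ 0 := by
    have hc : {θ : ℝ | Real.cos (θ - β) = 0} ⊆
        range fun k : ℤ => β + (2 * (k : ℝ) + 1) * Real.pi / 2 := by
      intro θ hθ
      obtain ⟨k, hk⟩ := Real.cos_eq_zero_iff.1 hθ
      exact ⟨k, by dsimp only; rw [← hk]; ring⟩
    have hc2 := ((countable_range _).mono hc).measure_zero volume
    rw [ae_iff]
    simpa using hc2
  filter_upwards [h1, h2, h3] with θ k1 k2 k3
  rw [← hA]
  rcases lt_or_gt_of_ne k3 with k4 | k4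
  · have h5 : Real.cos ((2 * β - Real.pi - θ) - β) = -Real.cos (θ - β) := by
      have h6 : (2 * β - Real.pi - θ) - β = -((θ - β) + Real.pi) := by ring
      rw [h6, Real.cos_neg, Real.cos_add_pi]
    have h6 := k2 (by rw [h5]; linarith)
    rw [hA, hrf, ← hrf θ] at h6
    rw [hA]
    have h7 : (2 * β - Real.pi - (2 * β - Real.pi - θ) : ℝ) = θ := by ring
    rw [h7] at h6
    exact h6.symm
  · exact k1 k4

end Pool.Agent.H37.EGD
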